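import Pool.Agent.MP_3ee8cb_gt.CZM.Fld
import Pool.Agent.MP_3ee8cb_gt.D3LM.Lip
import Pool.Agent.MP_3ee8cb_gt.D3NP.XSGN

/-! The abstract family of a front. -/

namespace Pool.Agent.MP_3ee8cb_gt.CZM

open D3 CZ Set Filter Topology MeasureTheory
open D3MO (S2)
open D3NP (Cc th ww jc Lw Rr Ls)
open D3GB (bv)
open D3AR (un)
open CZK (Km cv)
open scoped RealInnerProductSpace

theorem llc {W : Type} [NormedAddCommGroup W] [NormedSpace ℝ W] {f : V × V → W} {P : V → V × V}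
    {U : Set V} (hf : ContDiff ℝ 1 f) (hP : LocallyLipschitzOn U P) :
    LocallyLipschitzOn U fun a => f (P a) :=
  locallyLipschitzOn_iff_restrict.2 (hf.locallyLipschitz.comp hP.restrict)

theorem io_eq (e : ℝ × ℝ) : CZ.io e = CZK.io e := rfl

theorem io2 (e : ℝ × ℝ) : CZ.io e 2 = 0 := by simp [io_eq, CZK.io, bv]

theorem io_on {e : V} (h : e 2 = 0) : CZ.io (e 0, e 1) = e := by
  ext i
  fin_cases i <;> simp [io_eq, CZK.io, bv, h]

theorem io_ne {e : ℝ × ℝ} (h : e ≠ 0) : CZ.io e ≠ 0 := fun d => by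
  have h0 := congrArg (fun v : V => v 0) d
  have h1 := congrArg (fun v : V => v 1) d
  simp [io_eq, CZK.io, bv] at h0 h1
  exact h (Prod.ext h0 h1)

theorem Hf_eq (m : MF) (P : V → V × V) (u : V) (e : ℝ × ℝ) : Hf m P u e e = nf m P u (CZ.io e) := by
  simp only [Hf, nf, smul_apply, ContinuousLinearMap.bilinearComp_apply, innerSL_apply_apply,
    ContinuousLinearMap.comp_apply, smul_eq_mul]
  ring

theorem km_norm (κ : V → S2) (u : V) : ‖Km κ u‖ = Real.exp (u 2) := by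
  rw [Km, norm_smul, mem_sphere_zero_iff_norm.1 (κ u).2, mul_one,
    Real.norm_of_nonneg (Real.exp_pos _).le]

theorem un_km (κ : V → S2) (u : V) : un (Km κ u) = (κ u).1 := by
  rw [un, km_norm, Km, smul_smul, inv_mul_cancel₀ (Real.exp_pos _).ne', one_smul]

theorem rFD : R_FD := by
  intro pt m lg σ a hi b T G K Om Om0 D
  have pw := pt m lg σ a hi b T G K Om Om0 D
  obtain ⟨κ, rfl⟩ := D.km
  obtain ⟨ε, e1, e2⟩ := D3NP.XSGN.sgnS D.ok
  have F := fl D.ok D.jac D.geo D.tx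
  set P := PK m σ (Km κ) with hP
  have c1 : ContDiff ℝ 1 fun z : V × V => ContinuousLinearMap.adjoint (m.S z.1) z.2 :=
    (((ContinuousLinearMap.adjoint (𝕜 := ℝ) (E := V) (F := V)).toContinuousLinearEquiv.contDiff
      (n := 1)).comp ((D.ok.cS.of_le one_le_two).comp contDiff_fst)).clm_apply contDiff_snd
  have W : ∀ u ∈ Om0, DifferentiableAt ℝ P u → Pw m P u := fun u hu => (pw u (D.atl.sub hu)).2
  have dj : ∀ u ∈ Om0, DifferentiableAt ℝ P u → (dl m P u ≠ 0 ↔ jc (fun v => (P v).1) u ≠ 0) :=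
    fun u hu d => by
      rw [← (W u hu d).jc, mul_ne_zero_iff]
      exact and_iff_right fun e => by simpa [e] using e2 (P u).1
  have sq : ε * ε = 1 := by rcases e1 with rfl | rfl <;> norm_num
  have dd : ∀ u ∈ Om0, DifferentiableAt ℝ P u →
      dl m P u = ε * (m.S (P u).1).det * (ε * jc (fun v => (P v).1) u) := fun u hu d => by
    rw [← (W u hu d).jc]
    linear_combination (-(m.S (P u).1).det * jc (fun v => (P v).1) u) * sq
  refine ⟨⟨κ, Om, Om0, {u ∈ Om0 | DifferentiableAt ℝ P u}, Cc m σ, th m σ, bS b σ, bT b σ, T,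
    grd m G, Hf m P, ε⟩, ⟨D.atl, D.tx.ts, e1, F.cC, F.cθ, F.der, F.cgr, F.val, F.crit, F.mono,
    F.monos, F.exh, F.prop, F.sep, llc contDiff_fst D.geo.lip, llc c1 D.geo.lip,
    D.atl.ms.inter (measurableSet_of_differentiableAt ℝ P), fun u hu => hu.1, ?_,
    fun u hu t => ⟨D.atl.cyl0 u hu.1 t, (W u hu.1 hu.2).dif t⟩,
    fun u hu => ⟨hu.2.fst, (c1.differentiable one_ne_zero _).comp u hu.2⟩, fun u hu η => ?_,
    fun u hu => ?_, fun u hu hj => ?_, fun u hu => ⟨fun hs => ?_, fun hs => ?_⟩,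
    fun u hu t ht v => ?_⟩, rfl, rfl, rfl, rfl, rfl, rfl, rfl, rfl, rfl, e2, ?_⟩
  · filter_upwards [D3LM.ae_diff volume D.atl.op D.geo.lip] with u hu h0
    exact ⟨h0, hu (D.atl.sub h0)⟩
  · change ⟪ContinuousLinearMap.adjoint (m.S (P u).1) (P u).2, fderiv ℝ (fun v => (P v).1) u η⟫ = _
    rw [ContinuousLinearMap.adjoint_inner_left, fderiv.fst hu.2]
    exact (W u hu.1 hu.2).leg η
  · filter_upwards [(W u hu.1 hu.2).zer.countable.ae_notMem volume] with t ht
    exact (dj _ (D.atl.cyl0 u hu.1 t) ((W u hu.1 hu.2).dif t)).1 ht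
  · have := D.sw u (D.atl.sub hu.1) hu.2 ((dj u hu.1 hu.2).2 hj) (fun e => κ (u + CZK.io e))
      (Eventually.of_forall fun e => (un_km κ _).symm)
    simp only [← io_eq, map_zero, add_zero] at this
    exact this
  · have p : 0 < dl m P u := by rw [dd u hu.1 hu.2]; exact mul_pos (e2 _) hs
    refine ((W u hu.1 hu.2).dp p).imp (fun h v hv => ?_) fun h v hv => ?_
    · exact (h _ (io2 v) (io_ne hv)).trans_eq (Hf_eq m P u v).symm
    · exact (Hf_eq m P u v).trans_lt (h _ (io2 v) (io_ne hv))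
  · have p : dl m P u < 0 := by rw [dd u hu.1 hu.2]; exact mul_neg_of_pos_of_neg (e2 _) hs
    obtain ⟨e, e', h1, h2, h3, h4⟩ := (W u hu.1 hu.2).dm p
    refine ⟨(e 0, e 1), (e' 0, e' 1), ?_, ?_⟩
    · change 0 < Hf m P u _ _
      rwa [Hf_eq, io_on h1]
    · change Hf m P u _ _ < 0
      rwa [Hf_eq, io_on h2]
  · change Hf m P (u + t • bv 2) v v ≤ Hf m P u v v
    by_cases hv : v = 0
    · simp [hv]
    · have := ((W u hu.1 hu.2).anti _ (io2 v) (io_ne hv)).antitone ht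
      simp only [zero_smul, add_zero] at this
      rwa [Hf_eq, Hf_eq]
  · have rr : ∀ u, Rr (Cc m σ) (bet b σ) (Km κ u) ↔ ¬Lw (bS b σ (P u).1) (κ u) := fun u => by
      have v : bS b σ (P u).1 (κ u) = Real.log ‖Km κ u‖ := by
        rw [km_norm, Real.log_exp]
        exact (F.val (κ u) (u 2)).1
      have l : Ls (Cc m σ) (bet b σ) (Km κ u) = {q | bS b σ (P u).1 q < bS b σ (P u).1 (κ u)} := by
        rw [v]; rfl
      rw [Rr, l, un_km]
      exact ⟨fun h => h _ rfl, fun h p e => by rwa [show p = κ u from Subtype.ext e]⟩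
    ext u
    exact ⟨fun h => ⟨h.1.1, h.1.2, (dj u h.1.1 h.1.2).2 h.2.1, (rr u).2 h.2.2⟩,
      fun h => ⟨⟨h.1, h.2.1⟩, (dj u h.1 h.2.1).1 h.2.2.1, (rr u).1 h.2.2.2⟩⟩

end Pool.Agent.MP_3ee8cb_gt.CZM
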