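import Pool.Agent.MP_3ee8cb_gt.CZM.Map
import Pool.Agent.MP_3ee8cb_gt.CZT.Top

/-! The descent structure on one fibre. -/

namespace Pool.Agent.MP_3ee8cb_gt.CZM

open CR LV Set Filter Topology Real

variable {n : ℕ} {g h : Met n} {Γ Λ : Type} [Group Γ] [Group Λ] [MulAction Γ (E n)]
  [MulAction Λ (E n)] {Φ : ℝ → UT g → UT g} {Ψ : ℝ → UT h → UT h} {F : UT g ≃ₜ UT h} {a : ℝ}
  {S : Type} [MetricSpace S] {ι : S → UT g} {x : E n}

/-- `ι` parametrises the unit vectors at `x`. -/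
structure Fib (ι : S → UT g) (x : E n) : Prop where
  emb : IsEmbedding ι
  foot : ∀ q, (ι q).1.1 = x
  onto : ∀ p : UT g, p.1.1 = x → ∃ q, ι q = p

theorem CH.lift (H : Fib ι x) {T : E n × UT g → UT g} (hT : Ts g h Ψ F T) :
    ∃ T' : E n → S → S, (Continuous fun y : E n × S => T' y.1 y.2) ∧
      ∀ z q, ι (T' z q) = T (z, ι q) := by
  choose T' e using fun (z : E n) (q : S) => H.onto (T (z, ι q)) ((hT.foot _).trans (H.foot q))
  refine ⟨T', H.emb.continuous_iff.2 ?_, e⟩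
  exact (hT.cont.comp (continuous_fst.prodMk (H.emb.continuous.comp continuous_snd))).congr
    fun y => (e _ _).symm

theorem CH.cb (C : CH g h Γ Λ Φ Ψ F a) (H : Fib ι x) :
    (Continuous fun y : E n × S => bus h Ψ (ng (F (ι y.2))) y.1) ∧
      Continuous fun y : E n × S => -bus h Ψ (F (ι y.2)) y.1 := by
  have c : Continuous fun y : E n × S => F (ι y.2) :=
    F.continuous.comp (H.emb.continuous.comp continuous_snd)
  have c1 := C.nh.bus_cont.comp (f := fun y : E n × S => (y.1, ng (F (ι y.2))))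
    (continuous_fst.prodMk (ng_cont.comp c))
  have c2 := C.nh.bus_cont.comp (f := fun y : E n × S => (y.1, F (ι y.2)))
    (continuous_fst.prodMk c)
  exact ⟨c1, c2.neg⟩

theorem CH.fam' (C : CH g h Γ Λ Φ Ψ F a) (H : Fib ι x) {T : E n × UT g → UT g}
    (hT : Ts g h Ψ F T) {T' : E n → S → S} (c : Continuous fun y : E n × S => T' y.1 y.2)
    (e : ∀ z q, ι (T' z q) = T (z, ι q)) :
    CZT.TS (fun z q => bus h Ψ (ng (F (ι q))) z) (fun z q => -bus h Ψ (F (ι q)) z) T' := by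
  have N := C.nh
  refine ⟨(C.cb H).1, (C.cb H).2, c, fun z q => by linarith [N.bp.opp (F (ι q)) z],
    fun z q => by rw [e]; exact C.tm hT z _, fun z q k hk => ?_, fun z q hq => ?_,
    fun z q hq => ?_⟩
  · obtain ⟨γ, L, c1, L0, rfl, e1, low⟩ := C.join hT hk
    have e2 : T' (γ L) q = q := H.emb.injective ((e _ _).trans e1)
    refine JoinedIn.symm ?_
    have j2 := ((JoinedIn.of_segment_subset (x := (0 : ℝ)) (y := L) (s := Icc 0 L)
      (by rw [segment_eq_Icc L0])).map (f := fun s => T' (γ s) q)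
        (c.comp (c1.prodMk continuous_const))).mono (V := {y | bus h Ψ (ng (F (ι y))) (γ 0) < k})
          (by rintro _ ⟨s, hs, rfl⟩; have := low s hs; rwa [← e] at this)
    rwa [e2] at j2
  · obtain ⟨y, t1, low⟩ := C.cl hT hq
    refine mem_closure_of_tendsto (f := fun k => T' (y k) q) (b := atTop)
      (H.emb.tendsto_nhds_iff.2 (t1.congr fun k => (e _ _).symm)) (Eventually.of_forall fun k => ?_)
    have := low k
    rwa [← e] at this
  · refine H.emb.injective ((e _ _).trans ?_)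
    rw [N.crit (w := F (ι q)) (z := z) (by linarith)]
    exact C.fix hT _ _

theorem CH.fam (C : CH g h Γ Λ Φ Ψ F a) (H : Fib ι x) : ∃ T : E n → S → S,
    CZT.TS (fun z q => bus h Ψ (ng (F (ι q))) z) (fun z q => -bus h Ψ (F (ι q)) z) T := by
  obtain ⟨T, hT⟩ := C.ts
  obtain ⟨T', c, e⟩ := CH.lift H hT
  exact ⟨T', C.fam' H hT c e⟩

theorem CH.prop [CompactSpace S] (C : CH g h Γ Λ Φ Ψ F a) (H : Fib ι x) {Q : Set (E n)}
    (hQ : IsCompact Q) : ∃ R, ∀ p t, (Ψ t (F (ι p))).1.1 ∈ Q → |t| ≤ R := by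
  obtain ⟨R, hR⟩ := (hQ.prod isCompact_univ).bddAbove_image (C.cb H).1.abs.continuousOn
  refine ⟨R, fun p t ht => ?_⟩
  have := hR ⟨(_, p), ⟨ht, mem_univ _⟩, rfl⟩
  simp only at this
  rwa [C.nh.bp.back] at this

theorem CH.sep (C : CH g h Γ Λ Φ Ψ F a) (H : Fib ι x) {p q : S} {s t : ℝ}
    (e : Ψ s (F (ι p)) = Ψ t (F (ι q))) : p = q :=
  H.emb.injective (C.uniq ((H.foot p).trans (H.foot q).symm)
    (C.nh.trans (C.nh.symm (C.nh.shift s _)) (e ▸ C.nh.shift t _)))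

theorem CH.exh (C : CH g h Γ Λ Φ Ψ F a) (H : Fib ι x) {p q : S} (hne : q ≠ p) :
    ∃ t, bus h Ψ (ng (F (ι q))) (Ψ t (F (ι p))).1.1 < t :=
  C.un ((H.foot p).trans (H.foot q).symm) fun e => hne (H.emb.injective e)

end Pool.Agent.MP_3ee8cb_gt.CZM
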