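import Pool.Agent.MP_3ee8cb_gt.CZ.Spec
import Pool.Agent.MP_3ee8cb_gt.CZM.Fam
import Pool.Agent.MP_3ee8cb_gt.TB.Fin

/-! The descent map and the gradient in frames. -/

namespace Pool.Agent.MP_3ee8cb_gt.CZM

open CR LV D3 CZ Set Filter Topology
open D3MO (S2)
open D3.SC (dn Ort norm_S exists_dn)
open scoped RealInnerProductSpace

variable {g h : Met 3} {Λ : Type} [Group Λ] [MulAction Λ V] {Ψ : ℝ → UT h → UT h} {m m' : MF}

theorem nh_of {a : ℝ} (qh : QP h Λ Ψ) (ha : 0 < a) (hc : TB.CurvLe h a) : NH h Λ Ψ a :=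
  ⟨qh, ha, fun p q e s t hs ht => by
    have := TB.hinge 3 h Λ Ψ a qh.rp ha hc p q e s t hs ht
    rwa [mul_assoc] at this⟩

/-- The unit vector at `x` with frame components `q`. -/
def io (ho : Ort g m) (x : V) (q : S2) : UT g := ⟨(x, m.R x q.1), by
  rw [ho, real_inner_self_eq_norm_sq, mem_sphere_zero_iff_norm.1 q.2, one_pow]⟩

theorem dn_io (hm : m.OK) (ho : Ort g m) (x : V) (q : S2) : dn m 1 (io ho x q) = (x, q.1) := by
  simp only [dn, io, hm.SR, one_smul]

theorem fib_io (hm : m.OK) (ho : Ort g m) (x : V) : Fib (io ho x) x := by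
  have c : Continuous (io ho x) :=
    (continuous_const.prodMk ((m.R x).continuous.comp continuous_subtype_val)).subtype_mk _
  refine ⟨(c.isClosedEmbedding fun p q e => ?_).isEmbedding, fun _ => rfl, fun p e => ?_⟩
  · have := congrArg (fun w => (dn m 1 w).2) e
    simp only [dn_io hm] at this
    exact Subtype.ext this
  · subst e
    exact ⟨⟨m.S p.1.1 p.1.2, mem_sphere_zero_iff_norm.2 (norm_S hm ho p)⟩,
      Subtype.ext (Prod.ext rfl (hm.RS _ _))⟩

theorem neg_dn (r : ℝ) (w : UT h) : ((dn m' r w).1, -(dn m' r w).2) = dn m' r (ng w) := by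
  simp [dn, ng]

theorem ort_S (hm : m'.OK) (ho : Ort h m') (y u v : V) : h y u v = ⟪m'.S y u, m'.S y v⟫ := by
  rw [← ho y, hm.RS, hm.RS]

theorem rSTM : STM := by
  intro g h C C' Γ Λ _ _ _ _ Φ Ψ ρ F qg qh _ _ _ _ cj a m m' φ ha hc ok _ ok' jac' lk lk' _ fl rep
    _ b hb x
  have N := nh_of qh ha hc
  have K := ch_of qg N cj fl
  have ho : Ort g m := lk.orth
  have ho' : Ort h m' := lk'.orth
  have H := fib_io ok ho x
  have sg : ∀ q : S2, fr φ x q.1 = dn m' 1 (F (io ho x q)) := fun q => by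
    rw [fr, ← dn_io ok ho, rep 1 _ one_ne_zero]
  have sg' : ∀ q : S2, fr φ x (-q.1) = dn m' 1 (ng (F (io ho x q))) := fun q => by
    have e : (x, -q.1) = dn m (-1) (io ho x q) := by simp only [dn, io, ok.SR, neg_one_smul]
    rw [fr, e, rep _ _ (by norm_num), ← SC.dn_ng, neg_neg]
  have e1 : bS b (fr φ x) = fun z q => bus h Ψ (ng (F (io ho x q))) z := by
    funext z q
    simp only [bS, bet]
    rw [sg, neg_dn, hb 1 _ _ one_pos]
  have e2 : bT b (fr φ x) = fun z q => -bus h Ψ (F (io ho x q)) z := by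
    funext z q
    simp only [bT, bet]
    rw [sg', neg_dn, hb 1 _ _ one_pos, bp_ng]
  have e3 : ∀ q t, m'.Z t (fr φ x q.1) = dn m' 1 (Ψ t (F (io ho x q))) := fun q t => by
    rw [sg, SC.Z_dn jac' lk', one_mul]
  have e4 : ∀ q t, cc m' (fr φ x) q t = (Ψ t (F (io ho x q))).1.1 := fun q t => by
    rw [cc, e3]; rfl
  obtain ⟨T, hT⟩ := K.fam H
  obtain ⟨D, hD⟩ := N.as
  refine ⟨T, fun z q => (dn m' 1 (ng (D (z, ng (F (io ho x q)))))).2, by rw [e1, e2]; exact hT,
    fun z q r hr => ?_, ?_, fun z q => ?_, fun z q => ?_, fun q t => ?_, fun z p q e => ?_,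
    fun q t => ?_, fun z q e => ?_, fun p q hne => ?_⟩
  · by_cases hq : q = 0
    · rw [hq, smul_zero]
    · obtain ⟨p, e⟩ := exists_dn ok ho (z := (x, q)) hq
      have n0 : 0 < ‖q‖ := norm_pos_iff.2 hq
      have e' : (x, r • q) = dn m (r * ‖q‖) p := by
        have h1 := congrArg Prod.fst e
        have h2 := congrArg Prod.snd e
        simp only [dn] at h1 h2 ⊢
        rw [mul_smul, ← h2, ← h1]
      simp only [bet, fr]
      rw [e', rep _ _ (mul_pos hr n0).ne', neg_dn, hb _ _ _ (mul_pos hr n0)]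
      simp only at e
      rw [e, rep _ _ n0.ne', neg_dn, hb _ _ _ n0]
  · have c := continuous_subtype_val.comp (ng_cont.comp (hD.cont.comp
      (f := fun y : V × S2 => (y.1, ng (F (io ho x y.2)))) (continuous_fst.prodMk (ng_cont.comp
        (F.continuous.comp (H.emb.continuous.comp continuous_snd))))))
    exact ((ok'.cS.continuous.comp c.fst).clm_apply c.snd).const_smul (1 : ℝ)
  · rw [SC.norm_dn ok' ho', abs_one]
  · have d := N.der (hD.fw (z, ng (F (io ho x q))))
    have f := hD.foot (z, ng (F (io ho x q)))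
    rw [e1]
    generalize D (z, ng (F (io ho x q))) = u at d f
    simp only at f
    subst f
    refine d.congr_fderiv ?_
    ext1 v
    simp [dn, ng, ort_S ok' ho']
  · rw [e3, e4, ← hD.uniq ((Ψ t (F (io ho x q))).1.1, ng (F (io ho x q)))
      (ng (Ψ t (F (io ho x q)))) rfl (N.nshift _ _), bp_ng]
  · have f1 := hD.foot (z, ng (F (io ho x p)))
    have f2 := hD.foot (z, ng (F (io ho x q)))
    have e5 : D (z, ng (F (io ho x p))) = D (z, ng (F (io ho x q))) := by
      refine Subtype.ext (Prod.ext (f1.trans f2.symm) ?_)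
      have := congrArg (m'.R z) e
      generalize D (z, ng (F (io ho x p))) = u at this f1
      generalize D (z, ng (F (io ho x q))) = v at this f2
      simp only [dn, ng, one_smul, f1, f2, ok'.RS] at this
      exact neg_injective this
    have f := N.trans (N.symm (hD.fw (z, ng (F (io ho x p))))) (e5 ▸ hD.fw (z, ng (F (io ho x q))))
    simp only [← fl] at f
    have := K.uniq (p := ng (io ho x p)) (q := ng (io ho x q)) rfl f
    exact H.emb.injective (by rw [← bp_ng (io ho x p), this, bp_ng])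
  · rw [e1, e4]
    exact N.bp.back _ _
  · rw [e1, e2] at e
    rw [e1, e4]
    exact (N.crit (by simp only at e; linarith)).symm
  · obtain ⟨t, ht⟩ := K.exh H hne
    refine ⟨t, ?_⟩
    rw [e2, e4]
    linarith [N.bp.opp (F (io ho x q)) (Ψ t (F (io ho x p))).1.1]

end Pool.Agent.MP_3ee8cb_gt.CZM
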