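import Pool.Agent.MP_3ee8cb_gt.CZ.Spec

/-! The topological fields of the abstract family. -/

namespace Pool.Agent.MP_3ee8cb_gt.CZM

open D3 CZ Set Filter Topology
open D3MO (S2)
open D3NP (Cc th ww)
open D3NB (Ph)
open CZK (cv)
open scoped RealInnerProductSpace

variable {m : MF} {σ : V → V × V} {b : V × V → V → ℝ} {T G : _} {a : ℝ} {K : V → V} {Om : Set V}

/-- The Euclidean gradient. -/
noncomputable def grd (m : MF) (G : V → S2 → V) (z : V) (q : S2) : V :=
  ContinuousLinearMap.adjoint (m.S z) (G z q)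

theorem ph_e (m : MF) (σ : V → V × V) (p : S2) (t : ℝ) :
    Ph m σ (Real.exp t • p.1) = m.Z t (σ p.1) := by
  have : ‖Real.exp t • p.1‖ = Real.exp t := by
    rw [norm_smul, mem_sphere_zero_iff_norm.1 p.2, mul_one, Real.norm_of_nonneg (Real.exp_pos t).le]
  rw [Ph, this, Real.log_exp, smul_smul, inv_mul_cancel₀ (Real.exp_pos t).ne', one_smul]

theorem cv_C (m : MF) (σ : V → V × V) (p : S2) (t : ℝ) : cv (Cc m σ) p t = cc m σ p t := by
  rw [cv, Cc, ph_e, cc]

theorem cv_th (m : MF) (σ : V → V × V) (p : S2) (t : ℝ) : cv (th m σ) p t =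
    ContinuousLinearMap.adjoint (m.S (cc m σ p t)) (m.Z t (σ p.1)).2 := by
  rw [cv, th, Cc, ww, ph_e, cc]

/-- The fields. -/
structure Fl (m : MF) (σ : V → V × V) (b : V × V → V → ℝ) (G : V → S2 → V) : Prop where
  cC : ContinuousOn (Cc m σ) {a | a ≠ 0}
  cθ : ContinuousOn (th m σ) {a | a ≠ 0}
  der : ∀ z q, HasFDerivAt (fun x => bS b σ x q) (innerSL ℝ (grd m G z q)) z
  cgr : Continuous fun x : V × S2 => grd m G x.1 x.2
  val : ∀ p t, bS b σ (cv (Cc m σ) p t) p = t ∧ bT b σ (cv (Cc m σ) p t) p = t ∧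
    grd m G (cv (Cc m σ) p t) p = cv (th m σ) p t
  crit : ∀ z q, bT b σ z q = bS b σ z q → cv (Cc m σ) q (bS b σ z q) = z
  mono : ∀ p q, Antitone fun t => bS b σ (cv (Cc m σ) p t) q - t
  monos : ∀ p q, Antitone fun t => bT b σ (cv (Cc m σ) p t) q - t
  exh : ∀ p q, q ≠ p → ∃ t, bT b σ (cv (Cc m σ) p t) q < t
  prop : ∀ Q, IsCompact Q → ∃ R, ∀ p t, cv (Cc m σ) p t ∈ Q → |t| ≤ R
  sep : ∀ p q s t, cv (Cc m σ) p s = cv (Cc m σ) q t → cv (th m σ) p s = cv (th m σ) q t → p = q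

theorem cadj (ok : m.OK) : Continuous fun z => ContinuousLinearMap.adjoint (m.S z) :=
  (ContinuousLinearMap.adjoint (𝕜 := ℝ) (E := V) (F := V)).continuous.comp ok.cS.continuous

theorem flip_Z (jac : m.Jac) (z : V × V) (t : ℝ) : (m.Z t (z.1, -z.2)).1 = (m.Z (-t) z).1 := by
  rw [← neg_one_smul ℝ z.2, jac.scale, neg_one_mul]

theorem fl (ok : m.OK) (jac : m.Jac) (geo : Geo m σ a K Om) (tx : Tx m σ b T G) :
    Fl m σ b G := by
  have n1 : ∀ p : S2, ‖p.1‖ = 1 := fun p => mem_sphere_zero_iff_norm.1 p.2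
  have n0 : ∀ p : S2, p.1 ≠ 0 := fun p => norm_ne_zero_iff.1 (by rw [n1]; exact one_ne_zero)
  have cP : ContinuousOn (Ph m σ) {a | a ≠ 0} := by
    refine ok.cZ.continuous.comp_continuousOn ((continuous_norm.continuousOn.log
      fun q hq => norm_ne_zero_iff.2 hq).prodMk (geo.c0.comp ((continuous_norm.continuousOn.inv₀
        fun q hq => norm_ne_zero_iff.2 hq).smul continuousOn_id) fun q hq => ?_))
    exact smul_ne_zero (inv_ne_zero (norm_ne_zero_iff.2 hq)) hq
  have bt : ∀ z (q : S2), bT b σ z q = -bS b σ z (-q) := fun _ _ => rfl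
  have ray : ∀ (p q : S2) (t : ℝ), ∃ e : ℝ, |e| ≤ 1 ∧
      HasDerivAt (fun s => bS b σ (cc m σ p s) q) e t := fun p q t => by
    have d1 : HasDerivAt (cc m σ p) (m.R (cc m σ p t) (m.Z t (σ p.1)).2) t :=
      (ContinuousLinearMap.fst ℝ V V).hasFDerivAt.comp_hasDerivAt t (ok.ode (σ p.1) t)
    refine ⟨_, ?_, (tx.der (cc m σ p t) q).comp_hasDerivAt t d1⟩
    have := abs_real_inner_le_norm (G (cc m σ p t) q) (m.Z t (σ p.1)).2
    rw [tx.unit, jac.norm, geo.norm _ (n0 p), n1, mul_one] at this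
    simpa [ok.SR] using this
  have anti : ∀ (f : ℝ → ℝ), (∀ t, ∃ e : ℝ, e ≤ 1 ∧ HasDerivAt f e t) →
      Antitone fun t => f t - t := fun f hf => by
    choose e e1 e2 using hf
    have d := fun t => (e2 t).sub (hasDerivAt_id t)
    exact antitone_of_deriv_nonpos (fun t => (d t).differentiableAt) fun t => by
      have := (d t).deriv
      change deriv (fun t => f t - t) t = _ at this
      linarith [e1 t]
  refine ⟨cP.fst, ((cadj ok).comp_continuousOn cP.fst).clm_apply cP.snd, fun z q => ?_,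
    ((cadj ok).comp continuous_fst).clm_apply tx.cG, fun p t => ?_, fun z q e => ?_,
    fun p q => ?_, fun p q => ?_, fun p q hne => ?_, fun Q hQ => ?_, fun p q s t e1 e2 => ?_⟩
  · refine (tx.der z q).congr_fderiv ?_
    ext1 v
    simp [grd, ContinuousLinearMap.adjoint_inner_left]
  · rw [cv_C, cv_th, grd, tx.on]
    refine ⟨tx.val p t, ?_, rfl⟩
    have e : cc m σ p t = cc m σ (-p) (-t) := by
      have := geo.hom (-1) p.1 (by norm_num) (n0 p)
      rw [neg_one_smul, neg_one_smul] at this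
      rw [cc, cc, show (-p : S2).1 = -p.1 from rfl, this, flip_Z jac, neg_neg]
    rw [bt, e, tx.val, neg_neg]
  · rw [cv_C]
    exact tx.crit z q e
  · simp only [cv_C]
    exact anti _ fun t => (ray p q t).imp fun e h => ⟨(abs_le.1 h.1).2, h.2⟩
  · simp only [cv_C, bt]
    refine anti _ fun t => ?_
    obtain ⟨e, e1, e2⟩ := ray p (-q) t
    exact ⟨-e, by linarith [(abs_le.1 e1).1], e2.neg⟩
  · simp only [cv_C]
    exact tx.far p q hne
  · obtain ⟨R, hR⟩ := (hQ.prod isCompact_univ).bddAbove_image tx.ts.cb.abs.continuousOn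
    refine ⟨R, fun p t ht => ?_⟩
    have : |bS b σ (cv (Cc m σ) p t) p| ≤ R := hR ⟨(_, p), ⟨ht, mem_univ _⟩, rfl⟩
    rwa [cv_C, tx.val] at this
  · rw [cv_th, cv_th, ← tx.on, ← tx.on] at e2
    rw [cv_C, cv_C] at e1
    rw [e1] at e2
    refine tx.inj (cc m σ q t) (ext_inner_right ℝ fun v => ?_)
    have := congrArg (fun y => ⟪y, m.R (cc m σ q t) v⟫) e2
    simpa only [ContinuousLinearMap.adjoint_inner_left, ok.SR] using this

end Pool.Agent.MP_3ee8cb_gt.CZM
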