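import Pool.Agent.MP_3ee8cb_gt.CZM.Vis
import Pool.Agent.MP_3ee8cb_gt.LV.RUQ
import Pool.Agent.MP_3ee8cb_gt.LV.RMIN2
import Pool.Agent.MP_3ee8cb_gt.LV.REQV
import Pool.Agent.MP_3ee8cb_gt.LV.RMORSE

/-! The descent map of a continuous conjugacy. -/

namespace Pool.Agent.MP_3ee8cb_gt.CZM

open CR LV Set Filter Topology Real

variable {n : ℕ} {g h : Met n} {Γ Λ : Type} [Group Γ] [Group Λ] [MulAction Γ (E n)]
  [MulAction Λ (E n)] {Φ : ℝ → UT g → UT g} {Ψ : ℝ → UT h → UT h} {F : UT g ≃ₜ UT h} {a : ℝ}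

/-- A flip equivariant conjugacy to a negatively curved space. -/
structure CH (g h : Met n) (Γ Λ : Type) [Group Γ] [Group Λ] [MulAction Γ (E n)]
    [MulAction Λ (E n)] (Φ : ℝ → UT g → UT g) (Ψ : ℝ → UT h → UT h) (F : UT g ≃ₜ UT h) (a : ℝ) :
    Prop where
  qg : QP g Γ Φ
  nh : NH h Λ Ψ a
  mg : MinP g Φ
  tp : TP g h Φ Ψ F
  uq : UQ g h Ψ F
  flip : ∀ p, F (ng p) = ng (F p)

theorem ch_of (qg : QP g Γ Φ) (N : NH h Λ Ψ a) {ρ : Γ ≃* Λ} (cj : CJ g h Φ Ψ ρ F)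
    (fl : ∀ p, F (ng p) = ng (F p)) : CH g h Γ Λ Φ Ψ F a := by
  have u := LV.uq n g h Γ Λ Φ Ψ ρ F qg N.qp cj (LV.eqv n h Λ Ψ N.qp N.min)
  obtain ⟨m, t⟩ := LV.min2 n g h Γ Λ Φ Ψ ρ F qg N.qp cj u
    (LV.morse n h Λ Ψ N.qp a N.pos N.min N.th)
  exact ⟨qg, N, m, t, u, fl⟩

theorem CH.bg (C : CH g h Γ Λ Φ Ψ F a) : BP g Φ := LV.bp n g Γ Φ C.qg C.mg

theorem CH.b0 (C : CH g h Γ Λ Φ Ψ F a) (p : UT g) : bus g Φ p p.1.1 = 0 := by
  have := C.bg.self p 0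
  rwa [C.qg.rp.flow.zero, neg_zero] at this

/-- Two Busemann functions with one foot point have a negative sum somewhere. -/
theorem neg (hr : Riem g) (B : BP g Φ) {p q : UT g} (e : p.1.1 = q.1.1) (hne : q ≠ ng p) :
    ∃ y, bus g Φ p y + bus g Φ q y < 0 := by
  obtain ⟨C, hC⟩ := B.up (‖p.1.1‖ + 1)
  set v := p.1.2 + q.1.2 with hv
  have v0 : v ≠ 0 := fun e' => hne (Subtype.ext (Prod.ext e.symm
    (eq_neg_of_add_eq_zero_right e')))
  have c0 := hr.pos p.1.1 v v0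
  have t1 : Tendsto (fun s : ℝ => 2 * C * s * ‖v‖ ^ 2) (𝓝[>] 0) (𝓝 (2 * C * 0 * ‖v‖ ^ 2)) :=
    (Continuous.tendsto (by fun_prop) 0).mono_left nhdsWithin_le_nhds
  have t2 : Tendsto (fun s : ℝ => s * ‖v‖) (𝓝[>] 0) (𝓝 (0 * ‖v‖)) :=
    (Continuous.tendsto (by fun_prop) 0).mono_left nhdsWithin_le_nhds
  rw [mul_zero, zero_mul] at t1
  rw [zero_mul] at t2
  obtain ⟨s, ⟨s1, s2⟩, s0⟩ := (((t1.eventually_lt_const c0).and
    (t2.eventually_lt_const one_pos)).and self_mem_nhdsWithin).exists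
  have s0' : 0 < s := s0
  have hy : ‖p.1.1 + s • v‖ ≤ ‖p.1.1‖ + 1 := by
    refine (norm_add_le _ _).trans ?_
    rw [norm_smul, Real.norm_eq_abs, abs_of_pos s0']
    linarith
  have a1 := hC p _ (by linarith) hy
  have a2 := hC q _ (by rw [← e]; linarith) hy
  rw [← e] at a2
  rw [add_sub_cancel_left, map_smul, norm_smul, Real.norm_eq_abs, abs_of_pos s0',
    smul_eq_mul] at a1 a2
  have e1 : g p.1.1 v v = g p.1.1 p.1.2 v + g p.1.1 q.1.2 v := by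
    rw [← add_apply, ← map_add]
  refine ⟨p.1.1 + s • v, ?_⟩
  nlinarith [mul_lt_mul_of_pos_left s1 s0']

theorem CH.pull (C : CH g h Γ Λ Φ Ψ F a) {v q : UT g} (f : Fw h Ψ (F v) (F q)) (y : E n) :
    bus g Φ q y = bus g Φ v y + bus h Ψ (F q) (F v).1.1 := by
  have t := C.nh.at f
  rw [← C.tp.flow] at t
  rw [← C.bg.top _ _ (C.tp.top _ _ t) y, C.bg.shift]

/-- The offset along a connecting geodesic is a lower bound on the other side. -/
theorem CH.key0 (C : CH g h Γ Λ Φ Ψ F a) {u : UT h} {p q : UT g} (f : Fw h Ψ u (F p))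
    (f' : Fw h Ψ (ng u) (F q)) (y : E n) :
    bus h Ψ (F p) u.1.1 + bus h Ψ (F q) u.1.1 ≤ bus g Φ p y + bus g Φ q y := by
  obtain ⟨v, rfl⟩ := F.surjective u
  have a1 := C.pull f y
  rw [← C.flip] at f'
  have a2 := C.pull f' y
  rw [C.flip] at a2
  change _ = _ + bus h Ψ (F q) (F v).1.1 at a2
  linarith [C.bg.opp v y]

theorem CH.key (C : CH g h Γ Λ Φ Ψ F a) {u : UT h} {p q : UT g} (e : p.1.1 = q.1.1)
    (f : Fw h Ψ u (F p)) (f' : Fw h Ψ (ng u) (F q)) :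
    bus h Ψ (F p) u.1.1 + bus h Ψ (F q) u.1.1 ≤ 0 := by
  have := C.key0 f f' p.1.1
  rwa [C.b0, e, C.b0, add_zero] at this

theorem CH.key' (C : CH g h Γ Λ Φ Ψ F a) {u : UT h} {p q : UT g} (e : p.1.1 = q.1.1)
    (hne : q ≠ ng p) (f : Fw h Ψ u (F p)) (f' : Fw h Ψ (ng u) (F q)) :
    bus h Ψ (F p) u.1.1 + bus h Ψ (F q) u.1.1 < 0 := by
  obtain ⟨y, hy⟩ := neg C.qg.rp.riem C.bg e hne
  exact (C.key0 f f' y).trans_lt hy

theorem CH.uniq (C : CH g h Γ Λ Φ Ψ F a) {p q : UT g} (e : p.1.1 = q.1.1)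
    (f : Fw h Ψ (F p) (F q)) : p = q := by
  by_contra hne
  have a1 := C.pull f p.1.1
  rw [C.b0, e, C.b0] at a1
  have a2 := C.key' (u := F p) (p := q) (q := ng p) e.symm (fun e' => hne (by
    rw [← bp_ng p, e', bp_ng])) f (by rw [C.flip]; exact C.nh.refl _)
  have a3 := C.nh.b0 (ng (F p))
  rw [C.flip] at a2
  change bus h Ψ (ng (F p)) (F p).1.1 = 0 at a3
  linarith

theorem CH.ex (C : CH g h Γ Λ Φ Ψ F a) (x : E n) (u : UT h) :
    ∃ q : UT g, q.1.1 = x ∧ Fw h Ψ (F q) u := by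
  obtain ⟨v, rfl⟩ := F.surjective u
  obtain ⟨D, hD⟩ := C.uq.bdd
  have N := C.nh
  have db := C.qg.rp.db
  choose q h1 h2 using fun k : ℕ => C.qg.rp.hr x (Φ k v).1.1
  set K := D + (dd g x v.1.1 + dd h (F (q 0)).1.1 (F v).1.1) with hK
  have est : ∀ (k : ℕ) (t : ℝ), 0 ≤ t → t ≤ k →
      dd h (Ψ t (F (q k))).1.1 (Ψ t (F v)).1.1 ≤ 5 * K := fun k t t0 t1 => by
    refine N.tube ?_ ?_ t0 t1
    · have a1 := N.db.tri (F (q k)).1.1 (F (q 0)).1.1 (F v).1.1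
      have a2 := hD (q k) (q 0) ((h1 k).trans (h1 0).symm)
      linarith [db.nonneg x v.1.1]
    · set L := dd g x (Φ k v).1.1 with hL
      have a1 := hD _ _ (h2 k)
      rw [C.tp.flow, C.tp.flow] at a1
      have a2 := N.db.tri (Ψ k (F (q k))).1.1 (Ψ L (F (q k))).1.1 (Ψ k (F v)).1.1
      rw [N.min] at a2
      have e0 := C.mg v 0 k
      rw [C.qg.rp.flow.zero, zero_sub, abs_neg, abs_of_nonneg (Nat.cast_nonneg k)] at e0
      have a3 := db.tri x v.1.1 (Φ k v).1.1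
      have a4 := db.tri v.1.1 x (Φ k v).1.1
      rw [db.symm v.1.1 x] at a4
      have : |(k : ℝ) - L| ≤ dd g x v.1.1 := abs_le.2 ⟨by linarith, by linarith⟩
      linarith [N.db.nonneg (F (q 0)).1.1 (F v).1.1]
  obtain ⟨p, hp, φ, hφ, hl⟩ := (uc_cpt C.qg.rp.riem (isCompact_singleton (x := x))).tendsto_subseq
    (x := q) fun k => mem_singleton_iff.2 (h1 k)
  have big := (tendsto_natCast_atTop_atTop (R := ℝ)).comp hφ.tendsto_atTop
  refine ⟨p, hp, 5 * K, fun t ht => ?_⟩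
  have c : Continuous fun y : UT g => dd h (Ψ t (F y)).1.1 (Ψ t (F v)).1.1 :=
    cdd N.qp continuous_const continuous_const F.continuous continuous_const
  refine le_of_tendsto ((c.tendsto p).comp hl) ?_
  filter_upwards [big.eventually_ge_atTop t] with k hk
  exact est (φ k) t ht hk

/-- The vector at a given point whose image is asymptotic to a given vector. -/
structure Qs (g h : Met n) (Ψ : ℝ → UT h → UT h) (F : UT g ≃ₜ UT h) (Q : E n × UT h → UT g) :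
    Prop where
  foot : ∀ x, (Q x).1.1 = x.1
  fw : ∀ x, Fw h Ψ (F (Q x)) x.2
  uniq : ∀ x q, q.1.1 = x.1 → Fw h Ψ (F q) x.2 → q = Q x
  cont : Continuous Q

theorem CH.qs (C : CH g h Γ Λ Φ Ψ F a) : ∃ Q, Qs g h Ψ F Q := by
  choose Q h1 h2 using fun x : E n × UT h => C.ex x.1 x.2
  have u : ∀ (x : E n × UT h) (q : UT g), q.1.1 = x.1 → Fw h Ψ (F q) x.2 → q = Q x :=
    fun x q e f => C.uniq (e.trans (h1 x).symm) (C.nh.trans f (C.nh.symm (h2 x)))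
  exact ⟨Q, h1, h2, u, sel C.qg.rp.riem continuous_fst h1 (C.nh.closed.preimage
    ((F.continuous.comp continuous_snd).prodMk continuous_fst.snd)) h2 u⟩

/-- The descent map. -/
structure Ts (g h : Met n) (Ψ : ℝ → UT h → UT h) (F : UT g ≃ₜ UT h) (T : E n × UT g → UT g) :
    Prop where
  cont : Continuous T
  foot : ∀ x, (T x).1.1 = x.2.1.1
  ex : ∀ x, ∃ u : UT h, u.1.1 = x.1 ∧ Fw h Ψ u (F x.2) ∧ Fw h Ψ (ng u) (ng (F (T x)))
  uniq : ∀ (u : UT h) (p q : UT g), q.1.1 = p.1.1 → Fw h Ψ u (F p) → Fw h Ψ (ng u) (ng (F q)) →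
    T (u.1.1, p) = q

theorem CH.ts (C : CH g h Γ Λ Φ Ψ F a) : ∃ T, Ts g h Ψ F T := by
  obtain ⟨D, hD⟩ := C.nh.as
  obtain ⟨Q, hQ⟩ := C.qs
  refine ⟨fun x => ng (Q (x.2.1.1, ng (D (x.1, F x.2)))), ng_cont.comp (hQ.cont.comp
    ((continuous_subtype_val.comp continuous_snd).fst.prodMk (ng_cont.comp (hD.cont.comp
      (continuous_fst.prodMk (F.continuous.comp continuous_snd)))))), fun x => hQ.foot _,
    fun x => ⟨D (x.1, F x.2), hD.foot _, hD.fw _, ?_⟩, fun u p q e f f' => ?_⟩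
  · rw [← C.flip, bp_ng]
    exact C.nh.symm (hQ.fw _)
  · simp only
    rw [← hD.uniq (u.1.1, F p) u rfl f, ← hQ.uniq (p.1.1, ng u) (ng q) e
      (by rw [C.flip]; exact C.nh.symm f'), bp_ng]

variable {T : E n × UT g → UT g}

theorem CH.tm (C : CH g h Γ Λ Φ Ψ F a) (H : Ts g h Ψ F T) (z : E n) (p : UT g) :
    bus h Ψ (ng (F (T (z, p)))) z ≤ -bus h Ψ (F p) z := by
  obtain ⟨u, rfl, f, f'⟩ := H.ex (z, p)
  rw [← C.flip] at f'
  have := C.key (q := ng (T (u.1.1, p))) (H.foot (u.1.1, p)).symm f f'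
  rw [C.flip] at this
  linarith

theorem CH.fix (C : CH g h Γ Λ Φ Ψ F a) (H : Ts g h Ψ F T) (p : UT g) (t : ℝ) :
    T ((Ψ t (F p)).1.1, p) = p :=
  H.uniq _ p p rfl (C.nh.shift t _) (C.nh.nshift t _)

theorem CH.slide (C : CH g h Γ Λ Φ Ψ F a) (H : Ts g h Ψ F T) {u : UT h} {p : UT g}
    (f : Fw h Ψ u (F p)) (s : ℝ) : T ((Ψ s u).1.1, p) = T (u.1.1, p) := by
  obtain ⟨v, e, f1, f2⟩ := H.ex (u.1.1, p)
  obtain rfl := C.nh.uniq e (C.nh.trans f1 (C.nh.symm f))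
  exact H.uniq _ p _ (H.foot _) (C.nh.trans (C.nh.shift s _) f) (C.nh.trans (C.nh.nshift s _) f2)

theorem CH.far (C : CH g h Γ Λ Φ Ψ F a) (H : Ts g h Ψ F T) (z y : E n) (p : UT g) :
    bus h Ψ (ng (F (T (y, p)))) z ≤ dd h z y - bus h Ψ (F p) y := by
  linarith [C.tm H y p, C.nh.bp.lip (ng (F (T (y, p)))) z y]

theorem CH.join (C : CH g h Γ Λ Φ Ψ F a) (H : Ts g h Ψ F T) {z : E n} {p : UT g} {c : ℝ}
    (hc : bus h Ψ (ng (F p)) z < c) : ∃ (γ : ℝ → E n) (L : ℝ), Continuous γ ∧ 0 ≤ L ∧ γ 0 = z ∧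
      T (γ L, p) = p ∧ ∀ s ∈ Icc 0 L, bus h Ψ (ng (F (T (γ s, p)))) z < c := by
  have N := C.nh
  obtain ⟨R, hR⟩ := ((N.bp.lim (ng (F p)) z).eventually_lt_const hc).exists
  rw [rev N.qp] at hR
  obtain ⟨σ, rfl, s2⟩ := N.qp.rp.hr z (Ψ (-R) (F p)).1.1
  set L := dd h σ.1.1 (Ψ (-R) (F p)).1.1 with hL
  refine ⟨fun s => (Ψ s σ).1.1, L, (lps_foot N.qp.jc).comp (continuous_id.prodMk continuous_const),
    N.db.nonneg _ _, by simp only [N.z0], by simp only [s2, C.fix H], fun s hs => ?_⟩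
  have a1 := C.far H σ.1.1 (Ψ s σ).1.1 p
  have a2 := N.bp.lip (F p) (Ψ L σ).1.1 (Ψ s σ).1.1
  rw [N.min, s2, N.bp.self, abs_of_nonneg (sub_nonneg.2 hs.2)] at a2
  rw [N.d0, abs_of_nonneg hs.1] at a1
  linarith

theorem CH.cl (C : CH g h Γ Λ Φ Ψ F a) (H : Ts g h Ψ F T) {z : E n} {p : UT g}
    (hc : -bus h Ψ (F p) z < bus h Ψ (ng (F p)) z) : ∃ y : ℕ → E n,
      Tendsto (fun k => T (y k, p)) atTop (𝓝 p) ∧
        ∀ k, bus h Ψ (ng (F (T (y k, p)))) z < bus h Ψ (ng (F p)) z := by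
  have N := C.nh
  obtain ⟨u, rfl, f⟩ := N.ex z (ng (F p))
  set b := bus h Ψ (ng (F p)) u.1.1 with hb
  have val : ∀ s, bus h Ψ (ng (F p)) (Ψ s u).1.1 = b - s := fun s => by
    rw [N.coc f, N.bp.self]; ring
  have low : ∀ s, 0 ≤ s → bus h Ψ (ng (F (T ((Ψ s u).1.1, p)))) u.1.1 < b := fun s hs => by
    have a1 := C.far H u.1.1 (Ψ s u).1.1 p
    rw [N.d0, abs_of_nonneg hs] at a1
    refine a1.trans_lt (not_le.1 fun a2 => ?_)
    have a3 := N.crit (w := F p) (z := (Ψ s u).1.1) (by rw [val]; linarith)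
    rw [val] at a3
    have a4 : Ψ s u = ng (Ψ (b - s) (F p)) := N.uniq a3
      (N.trans (N.trans (N.shift s u) f) (N.symm (N.nshift _ _)))
    have a5 : u.1.1 = (Ψ b (F p)).1.1 := by
      have : (Ψ (-s) (Ψ s u)).1.1 = (Ψ (-s) (ng (Ψ (b - s) (F p)))).1.1 := by rw [a4]
      rwa [← N.qp.add, neg_add_cancel, N.z0, rev N.qp, neg_neg, ← N.qp.add, add_sub_cancel] at this
    rw [a5, N.bp.self] at hc
    linarith
  have big := tendsto_natCast_atTop_atTop (R := ℝ)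
  choose v v1 v2 using fun k : ℕ => N.ex (Ψ (|b| + k + b) u).1.1 (F p)
  have sm2 : Tendsto (fun k : ℕ => dd h (Ψ (|b| + k + b) u).1.1 (Ψ (-(|b| + k)) (F p)).1.1) atTop
      (𝓝 0) := by
    refine ((N.at f).comp (tendsto_atTop_add_const_left _ |b| big)).congr fun k => ?_
    simp only [Function.comp]
    rw [rev N.qp, ← N.qp.add]
  have near : Tendsto (fun k : ℕ => dd h (F p).1.1 (Ψ (|b| + k) (v k)).1.1) atTop (𝓝 0) := by
    have t3 := sm2.const_mul 3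
    rw [mul_zero] at t3
    refine squeeze_zero (fun k => N.db.nonneg _ _) (fun k => ?_) t3
    have := N.dec_le (N.dec (N.trans (v2 k) (N.symm (N.shift (-(|b| + k)) (F p)))))
      (t := |b| + k) (by positivity)
    rwa [← N.qp.add, add_neg_cancel, N.z0, v1, N.db.symm] at this
  refine ⟨fun k => (Ψ (|b| + k) (v k)).1.1, ?_, fun k => ?_⟩
  · have t1 := (H.cont.tendsto ((F p).1.1, p)).comp
      ((tend_of_dd N.qp near).prodMk_nhds tendsto_const_nhds)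
    have e := C.fix H p 0
    rw [N.z0] at e
    rwa [e] at t1
  · simp only
    rw [C.slide H (v2 k), v1]
    exact low _ (by linarith [neg_abs_le b, Nat.cast_nonneg (α := ℝ) k])

/-- Every other vector ends below the level. -/
theorem CH.un (C : CH g h Γ Λ Φ Ψ F a) {p q : UT g} (e : p.1.1 = q.1.1) (hne : q ≠ p) :
    ∃ t, bus h Ψ (ng (F q)) (Ψ t (F p)).1.1 < t := by
  have N := C.nh
  by_contra H
  have H' : ∀ t, t ≤ bus h Ψ (ng (F q)) (Ψ t (F p)).1.1 := fun t => not_lt.1 fun d => H ⟨t, d⟩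
  obtain ⟨v, f1, f2⟩ := N.vis (w := F p) (w' := ng (F q)) fun R hR => by
    have a1 := N.bp.lip (ng (F q)) (Ψ R (F p)).1.1 (Ψ R (ng (F q))).1.1
    rw [N.bp.self] at a1
    linarith [H' R]
  rw [← C.flip] at f1
  have k := C.key' (p := ng q) (q := p) e.symm (by rw [bp_ng]; exact hne.symm) f1 f2
  rw [C.flip] at k
  obtain ⟨t, ht⟩ := ((N.bp.lim (F p) v.1.1).eventually_lt_const
    (show bus h Ψ (F p) v.1.1 < -bus h Ψ (ng (F q)) v.1.1 by linarith)).exists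
  have a2 := N.bp.lip (ng (F q)) (Ψ t (F p)).1.1 v.1.1
  rw [N.db.symm] at a2
  linarith [H' t]

theorem NH.mono (N : NH h Λ Ψ a) (w u : UT h) :
    (Antitone fun t => bus h Ψ w (Ψ t u).1.1 - t) ∧
      Antitone fun t => -bus h Ψ w (Ψ t u).1.1 - t := by
  refine ⟨fun s t hst => ?_, fun s t hst => ?_⟩
  · have := N.bp.lip w (Ψ t u).1.1 (Ψ s u).1.1
    rw [N.min, abs_of_nonneg (sub_nonneg.2 hst)] at this
    simp only
    linarith
  · have := N.bp.lip w (Ψ s u).1.1 (Ψ t u).1.1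
    rw [N.min, abs_sub_comm, abs_of_nonneg (sub_nonneg.2 hst)] at this
    simp only
    linarith

end Pool.Agent.MP_3ee8cb_gt.CZM
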