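import Pool.Agent.MP_3ee8cb_gt.LV.RBP
import Pool.Agent.MP_3ee8cb_gt.LV.RHM
import Pool.Agent.MP_3ee8cb_gt.LV.RLPS

/-! Asymptotes and Busemann functions in negative curvature. -/

namespace Pool.Agent.MP_3ee8cb_gt.CZM

open CR LV Set Filter Topology Real

variable {n : ℕ} {h : Met n} {Λ : Type} [Group Λ] [MulAction Λ (E n)] {Ψ : ℝ → UT h → UT h}
  {a : ℝ}

/-- A negatively curved space. -/
structure NH (h : Met n) (Λ : Type) [Group Λ] [MulAction Λ (E n)] (Ψ : ℝ → UT h → UT h)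
    (a : ℝ) : Prop where
  qp : QP h Λ Ψ
  pos : 0 < a
  hin : Hinge h Ψ a

theorem NH.db (N : NH h Λ Ψ a) : DBP h := N.qp.rp.db
theorem NH.z0 (N : NH h Λ Ψ a) (w : UT h) : Ψ 0 w = w := N.qp.rp.flow.zero w
theorem NH.min (N : NH h Λ Ψ a) : MinP h Ψ := (hm n h Λ Ψ N.qp a N.pos N.hin).1
theorem NH.i2 (N : NH h Λ Ψ a) : I2P h Ψ a := (hm n h Λ Ψ N.qp a N.pos N.hin).2
theorem NH.th (N : NH h Λ Ψ a) : ThP h Ψ a := LV.th n h Λ Ψ N.qp a N.pos N.min N.i2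
theorem NH.bp (N : NH h Λ Ψ a) : BP h Ψ := LV.bp n h Λ Ψ N.qp N.min

theorem rev (Q : QP h Λ Ψ) (s : ℝ) (p : UT h) : (Ψ s (ng p)).1.1 = (Ψ (-s) p).1.1 := by
  rw [Q.rp.fl.rev]; rfl

theorem ng_cont : Continuous (ng : UT h → UT h) :=
  (continuous_subtype_val.fst.prodMk continuous_subtype_val.snd.neg).subtype_mk _

theorem eq_of_dd (Q : QP h Λ Ψ) {x y : E n} (e : dd h x y = 0) : x = y := by
  obtain ⟨p, h1, h2⟩ := Q.rp.hr x y
  rw [e, Q.rp.flow.zero] at h2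
  exact h1.symm.trans h2

theorem tend_of_dd (Q : QP h Λ Ψ) {x : E n} {y : ℕ → E n}
    (e : Tendsto (fun k => dd h x (y k)) atTop (𝓝 0)) : Tendsto y atTop (𝓝 x) := by
  refine tendsto_of_subseq_tendsto fun ψ hψ => ?_
  have e' := e.comp hψ
  obtain ⟨R, hR⟩ := e'.bddAbove_range
  obtain ⟨z, -, φ, hφ, hl⟩ := (Q.rp.pro x R).isCompact_closure.tendsto_subseq
    (x := fun k => y (ψ k)) fun k => subset_closure (hR ⟨k, rfl⟩)
  have t1 := (Q.rp.db.cont.tendsto (x, z)).comp (tendsto_const_nhds.prodMk_nhds hl)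
  have : x = z := eq_of_dd Q (tendsto_nhds_unique t1 (e'.comp hφ.tendsto_atTop))
  exact ⟨φ, this ▸ hl⟩

theorem cdd (Q : QP h Λ Ψ) {A : Type} [TopologicalSpace A] {s t : A → ℝ} {u w : A → UT h}
    (hs : Continuous s) (ht : Continuous t) (hu : Continuous u) (hw : Continuous w) :
    Continuous fun x => dd h (Ψ (s x) (u x)).1.1 (Ψ (t x) (w x)).1.1 :=
  Q.rp.db.cont.comp (((lps_foot Q.jc).comp (hs.prodMk hu)).prodMk
    ((lps_foot Q.jc).comp (ht.prodMk hw)))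

theorem cosh_le (ha : 0 < a) {x y : ℝ} (hx : 0 ≤ x) (hy : 0 ≤ y)
    (e : cosh (a * x) ≤ cosh (a * y)) : x ≤ y := by
  rw [cosh_le_cosh, abs_of_nonneg (mul_nonneg ha.le hx), abs_of_nonneg (mul_nonneg ha.le hy)] at e
  exact le_of_mul_le_mul_left e ha

theorem NH.d0 (N : NH h Λ Ψ a) (w : UT h) (t : ℝ) : dd h w.1.1 (Ψ t w).1.1 = |t| := by
  have := N.min w 0 t
  rwa [N.z0, zero_sub, abs_neg] at this

theorem NH.b0 (N : NH h Λ Ψ a) (w : UT h) : bus h Ψ w w.1.1 = 0 := by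
  have := N.bp.self w 0
  rwa [N.z0, neg_zero] at this

theorem NH.babs (N : NH h Λ Ψ a) (w : UT h) (z : E n) : |bus h Ψ w z| ≤ dd h z w.1.1 := by
  have h1 := N.bp.lip w z w.1.1
  have h2 := N.bp.lip w w.1.1 z
  rw [N.b0] at h1 h2
  rw [N.db.symm] at h2
  exact abs_le.2 ⟨by linarith, by linarith⟩

/-- Rays from one point diverge. -/
theorem NH.fan (N : NH h Λ Ψ a) {p q : UT h} (e : p.1.1 = q.1.1) {s R : ℝ} (h0 : 0 ≤ s)
    (h1 : s ≤ R) : dd h (Ψ s p).1.1 (Ψ s q).1.1 ≤ dd h (Ψ R p).1.1 (Ψ R q).1.1 := by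
  have t := N.th p q e R (R - s) (by linarith) (by linarith)
  rw [sub_sub_cancel] at t
  refine cosh_le N.pos (N.db.nonneg _ _) (N.db.nonneg _ _) (t.trans ?_)
  have h2 : exp (-(2 * a * (R - s))) ≤ 1 := by
    rw [exp_le_one_iff]
    have := mul_nonneg N.pos.le (sub_nonneg.2 h1)
    linarith
  nlinarith [one_le_cosh (a * dd h (Ψ R p).1.1 (Ψ R q).1.1)]

/-- Segments with close ends are close. -/
theorem NH.tube (N : NH h Λ Ψ a) {w w' : UT h} {R C t : ℝ} (h0 : dd h w.1.1 w'.1.1 ≤ C)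
    (h1 : dd h (Ψ R w).1.1 (Ψ R w').1.1 ≤ C) (t0 : 0 ≤ t) (t1 : t ≤ R) :
    dd h (Ψ t w).1.1 (Ψ t w').1.1 ≤ 5 * C := by
  have db := N.db
  obtain ⟨σ, s1, s2⟩ := N.qp.rp.hr w.1.1 (Ψ R w').1.1
  set L := dd h w.1.1 (Ψ R w').1.1 with hL
  have e0 := N.d0 w R
  rw [abs_of_nonneg (t0.trans t1)] at e0
  have l1 : |L - R| ≤ C := by
    have a1 := db.tri w.1.1 (Ψ R w).1.1 (Ψ R w').1.1
    have a2 := db.tri w.1.1 (Ψ R w').1.1 (Ψ R w).1.1
    rw [db.symm (Ψ R w').1.1] at a2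
    exact abs_le.2 ⟨by linarith, by linarith⟩
  have f1 := N.fan s1.symm t0 t1
  have f2 := N.fan (p := ng (Ψ L σ)) (q := ng (Ψ R w')) s2 (sub_nonneg.2 t1) (sub_le_self R t0)
  rw [rev N.qp, rev N.qp, rev N.qp, rev N.qp, ← N.qp.add, ← N.qp.add, ← N.qp.add, ← N.qp.add,
    neg_add_cancel, N.z0, show -(R - t) + R = t by ring] at f2
  have a1 := db.tri (Ψ R w).1.1 (Ψ R w').1.1 (Ψ R σ).1.1
  have a2 := N.min σ L R
  rw [s2] at a2
  have a3 := db.tri (Ψ (-R + L) σ).1.1 w.1.1 w'.1.1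
  have a4 := N.min σ (-R + L) 0
  rw [N.z0, s1, sub_zero, show -R + L = L - R by ring] at a4
  rw [show -R + L = L - R by ring] at a3 f2
  have a5 := N.min σ t (-(R - t) + L)
  rw [show t - (-(R - t) + L) = -(L - R) by ring, abs_neg] at a5
  have a6 := db.tri (Ψ t w).1.1 (Ψ t σ).1.1 (Ψ t w').1.1
  have a7 := db.tri (Ψ t σ).1.1 (Ψ (-(R - t) + L) σ).1.1 (Ψ t w').1.1
  linarith

/-- Bounded distance in the future. -/
def Fw (h : Met n) (Ψ : ℝ → UT h → UT h) (u w : UT h) : Prop :=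
  ∃ C : ℝ, ∀ t, 0 ≤ t → dd h (Ψ t u).1.1 (Ψ t w).1.1 ≤ C

theorem NH.refl (N : NH h Λ Ψ a) (u : UT h) : Fw h Ψ u u := ⟨0, fun _ _ => (N.db.refl _).le⟩

theorem NH.symm (N : NH h Λ Ψ a) {u w : UT h} (e : Fw h Ψ u w) : Fw h Ψ w u :=
  e.imp fun _ hC t ht => by rw [N.db.symm]; exact hC t ht

theorem NH.trans (N : NH h Λ Ψ a) {u v w : UT h} (e : Fw h Ψ u v) (e' : Fw h Ψ v w) :
    Fw h Ψ u w := by
  obtain ⟨C, hC⟩ := e
  obtain ⟨C', hC'⟩ := e'
  exact ⟨C + C', fun t ht => (N.db.tri _ _ _).trans (add_le_add (hC t ht) (hC' t ht))⟩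

theorem NH.shift (N : NH h Λ Ψ a) (s : ℝ) (u : UT h) : Fw h Ψ (Ψ s u) u :=
  ⟨|s|, fun t _ => by rw [← N.qp.add, N.min, add_sub_cancel_left]⟩

theorem NH.nshift (N : NH h Λ Ψ a) (s : ℝ) (u : UT h) : Fw h Ψ (ng (Ψ s u)) (ng u) := by
  have := N.shift (-s) (ng u)
  rwa [N.qp.rp.fl.rev, neg_neg] at this

theorem unit_eq (hr : Riem h) {u w : UT h} (e : u.1.1 = w.1.1) (c : 1 ≤ h u.1.1 u.1.2 w.1.2) :
    u = w := by
  have h1 := u.2
  have h2 := w.2
  rw [← e] at h2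
  by_contra hne
  have := hr.pos u.1.1 (u.1.2 - w.1.2) fun e' =>
    hne (Subtype.ext (Prod.ext e (sub_eq_zero.1 e')))
  simp only [map_sub, sub_apply] at this
  rw [hr.symm _ w.1.2 u.1.2] at this
  linarith

/-- The asymptote from a point is unique. -/
theorem NH.uniq (N : NH h Λ Ψ a) {u w : UT h} (e : u.1.1 = w.1.1) (f : Fw h Ψ u w) : u = w := by
  obtain ⟨C, hC⟩ := f
  refine unit_eq N.qp.rp.riem e (not_lt.1 fun hc => ?_)
  set c := h u.1.1 u.1.2 w.1.2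
  set s := (cosh (a * |C|) / (1 - c) + 1) / a with hs
  have c0 : 0 < 1 - c := by linarith
  have p0 : 0 ≤ cosh (a * |C|) / (1 - c) := (div_pos (cosh_pos _) c0).le
  have s0 : 0 ≤ s := div_nonneg (by linarith) N.pos.le
  have e1 : a * s = cosh (a * |C|) / (1 - c) + 1 := by rw [hs, mul_div_cancel₀ _ N.pos.ne']
  have t1 := N.hin u w e s s s0 s0
  have t2 : cosh (a * dd h (Ψ s u).1.1 (Ψ s w).1.1) ≤ cosh (a * |C|) := by
    have := lps_mono (e := 1) N.pos (N.db.nonneg _ _) ((hC s s0).trans (le_abs_self C)) zero_le_one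
    linarith
  have t3 : a * s ≤ sinh (a * s) := self_le_sinh_iff.2 (mul_nonneg N.pos.le s0)
  have t4 := cosh_sq (a * s)
  have t5 : (1 - c) * (cosh (a * |C|) / (1 - c)) = cosh (a * |C|) := mul_div_cancel₀ _ c0.ne'
  have t6 : cosh (a * |C|) / (1 - c) ≤ sinh (a * s) * sinh (a * s) := by nlinarith
  nlinarith [mul_le_mul_of_nonneg_left t6 c0.le]

/-- The decay of the distance to the asymptote. -/
def Dec (h : Met n) (Ψ : ℝ → UT h → UT h) (a : ℝ) (u w : UT h) : Prop := ∀ T, 0 ≤ T →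
  cosh (a * dd h (Ψ (T + bus h Ψ w u.1.1) u).1.1 (Ψ T w).1.1) ≤
    1 + exp (-(2 * a * T)) * (cosh (a * (2 * dd h u.1.1 w.1.1)) - 1)

theorem NH.str (N : NH h Λ Ψ a) (z : E n) (w : UT h) : ∃ u : UT h, u.1.1 = z ∧ Dec h Ψ a u w := by
  have db := N.db
  choose u h1 h2 using fun k : ℕ => N.qp.rp.hr z (Ψ k w).1.1
  have est : ∀ (k : ℕ) (T : ℝ), 0 ≤ T → T ≤ k →
      cosh (a * dd h (Ψ (T + (dd h z (Ψ k w).1.1 - k)) (u k)).1.1 (Ψ T w).1.1) ≤
        1 + exp (-(2 * a * T)) * (cosh (a * (2 * dd h z w.1.1)) - 1) := fun k T t0 t1 => by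
    set L := dd h z (Ψ k w).1.1 with hL
    have t := N.th (ng (Ψ L (u k))) (ng (Ψ k w)) (h2 k) k T t0 t1
    rw [rev N.qp, rev N.qp, rev N.qp, rev N.qp, ← N.qp.add, ← N.qp.add, ← N.qp.add, ← N.qp.add,
      neg_add_cancel, N.z0, show -((k : ℝ) - T) + k = T by ring,
      show -((k : ℝ) - T) + L = T + (L - k) by ring] at t
    refine t.trans (lps_mono N.pos (db.nonneg _ _) ?_ (exp_pos _).le)
    have a1 := db.tri (Ψ (-k + L) (u k)).1.1 z w.1.1
    have a2 := N.min (u k) (-k + L) 0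
    rw [N.z0, h1, sub_zero] at a2
    have e0 := N.d0 w k
    rw [abs_of_nonneg (Nat.cast_nonneg k)] at e0
    have a3 := db.tri z w.1.1 (Ψ k w).1.1
    have a4 := db.tri w.1.1 z (Ψ k w).1.1
    rw [db.symm w.1.1 z] at a4
    have : |-(k : ℝ) + L| ≤ dd h z w.1.1 := abs_le.2 ⟨by linarith, by linarith⟩
    linarith
  obtain ⟨v, hv, φ, hφ, hl⟩ := (uc_cpt N.qp.rp.riem (isCompact_singleton (x := z))).tendsto_subseq
    (x := u) fun k => mem_singleton_iff.2 (h1 k)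
  have hz : v.1.1 = z := hv
  have big := (tendsto_natCast_atTop_atTop (R := ℝ)).comp hφ.tendsto_atTop
  refine ⟨v, hz, fun T hT => ?_⟩
  rw [hz]
  have c : Continuous fun x : ℝ × UT h => cosh (a * dd h (Ψ (T + x.1) x.2).1.1 (Ψ T w).1.1) :=
    continuous_cosh.comp (continuous_const.mul (cdd N.qp (continuous_const.add continuous_fst)
      continuous_const continuous_snd continuous_const))
  have t1 : Tendsto (fun k => (dd h z (Ψ (φ k) w).1.1 - (φ k : ℝ), u (φ k))) atTop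
      (𝓝 (bus h Ψ w z, v)) := ((N.bp.lim w z).comp big).prodMk_nhds hl
  have t2 := (c.tendsto (bus h Ψ w z, v)).comp t1
  refine le_of_tendsto t2 ?_
  filter_upwards [big.eventually_ge_atTop T] with k hk
  exact est (φ k) T hT hk

theorem NH.dec_le (N : NH h Λ Ψ a) {u w : UT h} (d : Dec h Ψ a u w) {t : ℝ} (ht : 0 ≤ t) :
    dd h (Ψ t u).1.1 (Ψ t w).1.1 ≤ 3 * dd h u.1.1 w.1.1 := by
  have a1 := (lps_decay N.pos (mul_nonneg zero_le_two (N.db.nonneg _ _))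
    (fun T => N.db.nonneg _ _) d).1 t ht
  have a2 := N.db.tri (Ψ t u).1.1 (Ψ (t + bus h Ψ w u.1.1) u).1.1 (Ψ t w).1.1
  rw [N.min, sub_add_cancel_left, abs_neg] at a2
  linarith [N.babs w u.1.1]

theorem NH.ex (N : NH h Λ Ψ a) (z : E n) (w : UT h) : ∃ u : UT h, u.1.1 = z ∧ Fw h Ψ u w :=
  (N.str z w).imp fun _ d => ⟨d.1, _, fun _ ht => N.dec_le d.2 ht⟩

theorem NH.dec (N : NH h Λ Ψ a) {u w : UT h} (f : Fw h Ψ u w) : Dec h Ψ a u w := by
  obtain ⟨v, e, d⟩ := N.str u.1.1 w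
  rwa [N.uniq e (N.trans ⟨_, fun _ ht => N.dec_le d ht⟩ (N.symm f))] at d

theorem NH.at (N : NH h Λ Ψ a) {u w : UT h} (f : Fw h Ψ u w) :
    Tendsto (fun t => dd h (Ψ t (Ψ (bus h Ψ w u.1.1) u)).1.1 (Ψ t w).1.1) atTop (𝓝 0) := by
  refine (lps_decay N.pos (mul_nonneg zero_le_two (N.db.nonneg _ _))
    (fun T => N.db.nonneg _ _) (N.dec f)).2.congr fun t => ?_
  rw [N.qp.add]

theorem NH.coc (N : NH h Λ Ψ a) {u w : UT h} (f : Fw h Ψ u w) (y : E n) :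
    bus h Ψ w y = bus h Ψ u y + bus h Ψ w u.1.1 := by
  rw [← N.bp.top _ _ (N.at f) y, N.bp.shift]

theorem NH.closed (N : NH h Λ Ψ a) : IsClosed {x : UT h × UT h | Fw h Ψ x.1 x.2} := by
  have : {x : UT h × UT h | Fw h Ψ x.1 x.2} = ⋂ t ∈ Ici (0 : ℝ),
      {x | dd h (Ψ t x.1).1.1 (Ψ t x.2).1.1 ≤ 3 * dd h x.1.1.1 x.2.1.1} := by
    ext x
    simp only [mem_ofPred_eq, mem_iInter, mem_Ici]
    exact ⟨fun f t ht => N.dec_le (N.dec f) ht, fun f => ⟨_, f⟩⟩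
  rw [this]
  refine isClosed_biInter fun t _ => isClosed_le
    (cdd N.qp continuous_const continuous_const continuous_fst continuous_snd)
    (continuous_const.mul (N.db.cont.comp ((continuous_subtype_val.comp continuous_fst).fst.prodMk
      (continuous_subtype_val.comp continuous_snd).fst)))

/-- A selection with a closed graph is continuous. -/
theorem sel {A : Type} [TopologicalSpace A] [FirstCountableTopology A] (hr : Riem h)
    {fo : A → E n} (hfo : Continuous fo) {G : A → UT h} (hf : ∀ x, (G x).1.1 = fo x)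
    {R : Set (A × UT h)} (hR : IsClosed R) (h1 : ∀ x, (x, G x) ∈ R)
    (h2 : ∀ x u, u.1.1 = fo x → (x, u) ∈ R → u = G x) : Continuous G := by
  refine continuous_iff_seqContinuous.2 fun q q₀ hq => ?_
  refine tendsto_of_subseq_tendsto fun ψ hψ => ?_
  have hq' := hq.comp hψ
  have hp := (hfo.tendsto q₀).comp hq'
  obtain ⟨r, hr'⟩ := hp.norm.bddAbove_range
  obtain ⟨v, -, φ, hφ, hl⟩ := (uc_cpt hr (isCompact_closedBall (0 : E n) r)).tendsto_subseq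
    (x := fun k => G (q (ψ k))) fun k => by
      change (G (q (ψ k))).1.1 ∈ Metric.closedBall (0 : E n) r
      rw [hf, mem_closedBall_zero_iff]
      exact hr' ⟨k, rfl⟩
  have e1 : v.1.1 = fo q₀ := tendsto_nhds_unique
    ((continuous_subtype_val.fst.tendsto v).comp hl)
    ((hp.comp hφ.tendsto_atTop).congr fun k => (hf _).symm)
  have e2 : (q₀, v) ∈ R := hR.mem_of_tendsto ((hq'.comp hφ.tendsto_atTop).prodMk_nhds hl)
    (Eventually.of_forall fun k => h1 _)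
  exact ⟨φ, h2 q₀ v e1 e2 ▸ hl⟩

/-- The asymptote map. -/
structure As (h : Met n) (Ψ : ℝ → UT h → UT h) (D : E n × UT h → UT h) : Prop where
  foot : ∀ x, (D x).1.1 = x.1
  fw : ∀ x, Fw h Ψ (D x) x.2
  uniq : ∀ x u, u.1.1 = x.1 → Fw h Ψ u x.2 → u = D x
  cont : Continuous D

theorem NH.as (N : NH h Λ Ψ a) : ∃ D, As h Ψ D := by
  choose D h1 h2 using fun x : E n × UT h => N.ex x.1 x.2
  have u : ∀ (x : E n × UT h) (u : UT h), u.1.1 = x.1 → Fw h Ψ u x.2 → u = D x := fun x u e f =>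
    N.uniq (e.trans (h1 x).symm) (N.trans f (N.symm (h2 x)))
  exact ⟨D, h1, h2, u, sel N.qp.rp.riem continuous_fst h1
    (N.closed.preimage (continuous_snd.prodMk continuous_fst.snd)) h2 u⟩

theorem NH.rate (N : NH h Λ Ψ a) (C : ℝ) {ε : ℝ} (hε : 0 < ε) : ∃ T : ℝ, ∀ (z : E n) (w : UT h),
    dd h z w.1.1 ≤ C → |dd h z (Ψ T w).1.1 - T - bus h Ψ w z| ≤ ε := by
  have t0 : Tendsto (fun T : ℝ => 1 + exp (-(2 * a * T)) * (cosh (a * (2 * C)) - 1)) atTop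
      (𝓝 (1 + 0 * (cosh (a * (2 * C)) - 1))) :=
    ((tendsto_exp_neg_atTop_nhds_zero.comp (tendsto_id.const_mul_atTop
      (by linarith [N.pos] : 0 < 2 * a))).mul_const _).const_add 1
  rw [zero_mul, add_zero] at t0
  obtain ⟨T, h1, h2, h3⟩ := ((t0.eventually_lt_const (one_lt_cosh.2 (mul_pos N.pos hε).ne')).and
    ((eventually_ge_atTop C).and (eventually_ge_atTop 0))).exists
  refine ⟨T, fun z w hz => ?_⟩
  obtain ⟨u, rfl, d⟩ := N.str z w
  have a1 := cosh_le N.pos (N.db.nonneg _ _) hε.le (((d T h3).trans (lps_mono N.pos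
    (mul_nonneg zero_le_two (N.db.nonneg _ _)) (by linarith) (exp_pos _).le)).trans h1.le)
  have a2 := N.d0 u (T + bus h Ψ w u.1.1)
  have a3 := (abs_le.1 (N.babs w u.1.1)).1
  rw [abs_of_nonneg (by linarith)] at a2
  have a4 := N.db.tri u.1.1 (Ψ (T + bus h Ψ w u.1.1) u).1.1 (Ψ T w).1.1
  have a5 := N.db.tri u.1.1 (Ψ T w).1.1 (Ψ (T + bus h Ψ w u.1.1) u).1.1
  rw [N.db.symm (Ψ T w).1.1] at a5
  exact abs_le.2 ⟨by linarith, by linarith⟩

/-- The Busemann function is jointly continuous. -/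
theorem NH.bus_cont (N : NH h Λ Ψ a) : Continuous fun x : E n × UT h => bus h Ψ x.2 x.1 := by
  rw [continuous_iff_continuousAt]
  intro x₀
  rw [ContinuousAt, Metric.tendsto_nhds]
  intro ε hε
  obtain ⟨T, hT⟩ := N.rate (dd h x₀.1 x₀.2.1.1 + 1) (show 0 < ε / 3 by positivity)
  have c0 : Continuous fun x : E n × UT h => dd h x.1 x.2.1.1 :=
    N.db.cont.comp (continuous_fst.prodMk (continuous_subtype_val.comp continuous_snd).fst)
  have c1 : Continuous fun x : E n × UT h => dd h x.1 (Ψ T x.2).1.1 :=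
    N.db.cont.comp (continuous_fst.prodMk
      ((lps_foot N.qp.jc).comp (continuous_const.prodMk continuous_snd)))
  filter_upwards [(c0.tendsto x₀).eventually_lt_const (lt_add_one _),
    Metric.tendsto_nhds.1 (c1.tendsto x₀) _ (show 0 < ε / 3 by positivity)] with x h1 h2
  have a1 := abs_le.1 (hT x.1 x.2 h1.le)
  have a2 := abs_le.1 (hT x₀.1 x₀.2 (by linarith))
  rw [Real.dist_eq, abs_lt] at h2 ⊢
  constructor <;> linarith [h2.1, h2.2, a1.1, a1.2, a2.1, a2.2]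

end Pool.Agent.MP_3ee8cb_gt.CZM
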