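import Pool.Agent.MP_3ee8cb_gt.CZM.Neg

/-! Points on a geodesic, visibility, and the gradient of a Busemann function. -/

namespace Pool.Agent.MP_3ee8cb_gt.CZM

open CR LV Set Filter Topology Real Asymptotics

variable {n : ℕ} {h : Met n} {Λ : Type} [Group Λ] [MulAction Λ (E n)] {Ψ : ℝ → UT h → UT h}
  {a : ℝ}

theorem alg (x y R X : ℝ) {z : ℝ} (H : X * sinh (2 * R) ≤
    sinh (R - x) * cosh (R + y) + sinh (R + x) * cosh (R + z)) :
    X * (1 - exp (-R) ^ 4) / 2 ≤
      (exp (-x) - exp (-R) ^ 2 * exp x) * (exp y + exp (-R) ^ 2 * exp (-y)) / 4 +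
      (exp x - exp (-R) ^ 2 * exp (-x)) * (exp z + exp (-R) ^ 2 * exp (-z)) / 4 := by
  have e : exp R * exp (-R) = 1 := by rw [← exp_add, add_neg_cancel, exp_zero]
  simp only [sinh_eq, cosh_eq, two_mul, neg_add, sub_eq_add_neg, exp_add, neg_neg] at H
  have H2 := mul_le_mul_of_nonneg_left H (show 0 ≤ exp (-R) ^ 2 by positivity)
  generalize exp R = A at *
  generalize exp (-R) = B at *
  have e1 : B ^ 2 * (X * ((A * A + -(B * B)) / 2)) = X * ((A * B) ^ 2 - B ^ 4) / 2 := by ring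
  have e2 : ∀ p p' q q' : ℝ, B ^ 2 * ((A * p + -(B * p')) / 2 * ((A * q + B * q') / 2)) =
      (A * B * p - B ^ 2 * p') * (A * B * q + B ^ 2 * q') / 4 := fun _ _ _ _ => by ring
  rw [e1, mul_add, e2, e2, e] at H2
  simpa only [one_pow, one_mul] using H2

/-- The distance to a geodesic is bounded by the two Busemann functions. -/
theorem NH.two (N : NH h Λ Ψ a) (w : UT h) (z : E n) (t : ℝ) : cosh (a * dd h z (Ψ t w).1.1) ≤
    (exp (a * (bus h Ψ (ng w) z - t)) + exp (a * (bus h Ψ w z + t))) / 2 := by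
  have l0 : Tendsto (fun R : ℝ => exp (-(a * R))) atTop (𝓝 0) :=
    tendsto_exp_neg_atTop_nhds_zero.comp (tendsto_id.const_mul_atTop N.pos)
  have l1 := (N.bp.lim (ng w) z).const_mul a
  have l2 := (N.bp.lim w z).const_mul a
  have c1 : Continuous fun x : ℝ => cosh (a * dd h z (Ψ t w).1.1) * (1 - x ^ 4) / 2 := by fun_prop
  have c2 : Continuous fun x : ℝ × ℝ × ℝ =>
      (exp (-(a * t)) - x.1 ^ 2 * exp (a * t)) * (exp x.2.1 + x.1 ^ 2 * exp (-x.2.1)) / 4 +
      (exp (a * t) - x.1 ^ 2 * exp (-(a * t))) * (exp x.2.2 + x.1 ^ 2 * exp (-x.2.2)) / 4 := by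
    fun_prop
  have t1 := (c1.tendsto 0).comp l0
  have t2 := (c2.tendsto (0, a * bus h Ψ (ng w) z, a * bus h Ψ w z)).comp
    (l0.prodMk_nhds (l1.prodMk_nhds l2))
  have := le_of_tendsto_of_tendsto t1 t2 (by
    filter_upwards [eventually_ge_atTop |t|] with R hR
    have i := N.i2 (Ψ (-R) w) z (2 * R) (R + t) (by linarith [neg_abs_le t])
      (by linarith [le_abs_self t])
    rw [← N.qp.add, ← N.qp.add, show R + t + -R = t by ring, show 2 * R + -R = R by ring] at i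
    refine alg (a * t) _ (a * R) _ ?_
    simp only
    rw [rev N.qp]
    rw [show a * (2 * R) = 2 * (a * R) by ring, show a * (2 * R - (R + t)) = a * R - a * t by ring,
      mul_add a R t] at i
    rw [show a * R + a * (dd h z (Ψ (-R) w).1.1 - R) = a * dd h z (Ψ (-R) w).1.1 by ring,
      show a * R + a * (dd h z (Ψ R w).1.1 - R) = a * dd h z (Ψ R w).1.1 by ring]
    exact i)
  rw [mul_sub, mul_add, sub_eq_add_neg, exp_add, exp_add]
  simp only at this
  nlinarith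

/-- Where the two Busemann functions are opposite the point is on the geodesic. -/
theorem NH.crit (N : NH h Λ Ψ a) {w : UT h} {z : E n}
    (e : bus h Ψ (ng w) z + bus h Ψ w z ≤ 0) : z = (Ψ (bus h Ψ (ng w) z) w).1.1 := by
  have t := N.two w z (bus h Ψ (ng w) z)
  have e0 : bus h Ψ w z + bus h Ψ (ng w) z = 0 := by linarith [N.bp.opp w z]
  rw [sub_self, e0, mul_zero, exp_zero, add_self_div_two] at t
  exact eq_of_dd N.qp (le_antisymm (cosh_le N.pos (N.db.nonneg _ _) le_rfl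
    (by rwa [mul_zero, cosh_zero])) (N.db.nonneg _ _))

theorem cosh_add_le {x y : ℝ} (hy : 0 ≤ y) : cosh (x + y) ≤ exp y * cosh x := by
  have h1 : exp (-y) ≤ exp y := exp_le_exp.2 (by linarith)
  rw [cosh_eq, cosh_eq, neg_add, exp_add, exp_add]
  nlinarith [exp_pos (-x)]

/-- Visibility. -/
theorem NH.vis (N : NH h Λ Ψ a) {w w' : UT h}
    (H : ∀ R, 0 ≤ R → 2 * R ≤ dd h (Ψ R w).1.1 (Ψ R w').1.1) :
    ∃ v, Fw h Ψ v w' ∧ Fw h Ψ (ng v) w := by
  have db := N.db
  set D := dd h w.1.1 w'.1.1 with hD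
  have D0 : 0 ≤ D := db.nonneg _ _
  obtain ⟨K, K0, hK⟩ : ∃ K, 0 ≤ K ∧ exp (a * D) ≤ cosh (a * K) := by
    refine ⟨exp (a * D) / a, by have := N.pos; positivity, ?_⟩
    rw [mul_div_cancel₀ _ N.pos.ne']
    exact (self_le_sinh_iff.2 (exp_pos _).le).trans (sinh_lt_cosh _).le
  have ex : ∀ k : ℕ, ∃ v : UT h, dd h w.1.1 v.1.1 ≤ K ∧ ∀ t : ℝ, 0 ≤ t → t ≤ k + 1 →
      dd h (Ψ t v).1.1 (Ψ t w').1.1 ≤ 5 * (K + D) ∧
        dd h (Ψ t (ng v)).1.1 (Ψ t w).1.1 ≤ 5 * (K + D) := fun k => by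
    set R : ℝ := k + 1 with hR
    have R0 : 0 < R := by positivity
    obtain ⟨σ, s1, s2⟩ := N.qp.rp.hr (Ψ R w).1.1 (Ψ R w').1.1
    have l1 := H R R0.le
    set L := dd h (Ψ R w).1.1 (Ψ R w').1.1 with hL
    have e1 := N.d0 w R
    have e2 := N.d0 w' R
    rw [abs_of_pos R0] at e1 e2
    have a1 := db.tri w.1.1 w'.1.1 (Ψ R w').1.1
    have a2 := db.tri (Ψ R w).1.1 w.1.1 (Ψ R w').1.1
    rw [db.symm (Ψ R w).1.1 w.1.1] at a2
    have i := N.i2 σ w.1.1 L R R0.le (by linarith)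
    rw [s1, s2, e1] at i
    have b1 : cosh (a * dd h w.1.1 (Ψ R w').1.1) ≤ exp (a * D) * cosh (a * (L - R)) := by
      refine le_trans ?_ (cosh_add_le (mul_nonneg N.pos.le D0))
      have := lps_mono (e := 1) (b := L - R + D) N.pos (db.nonneg w.1.1 (Ψ R w').1.1)
        (by linarith) zero_le_one
      rw [← mul_add]
      linarith
    have b2 := sinh_add (a * (L - R)) (a * R)
    rw [show a * (L - R) + a * R = a * L by ring] at b2
    have b3 : 0 < sinh (a * R) := sinh_pos_iff.2 (mul_pos N.pos R0)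
    have b4 : 0 < sinh (a * (L - R)) := sinh_pos_iff.2 (mul_pos N.pos (by linarith))
    have b5 : 0 < sinh (a * L) := sinh_pos_iff.2 (mul_pos N.pos (by linarith))
    have b6 : 1 ≤ exp (a * D) := one_le_exp (mul_nonneg N.pos.le D0)
    have b7 : cosh (a * dd h w.1.1 (Ψ R σ).1.1) ≤ exp (a * D) := by
      refine le_of_mul_le_mul_right (i.trans ?_) b5
      rw [b2]
      nlinarith [mul_le_mul_of_nonneg_left b1 b3.le,
        mul_le_mul_of_nonneg_right b6 (mul_pos b4 (cosh_pos (a * R))).le]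
    have b8 := cosh_le N.pos (db.nonneg _ _) K0 (b7.trans hK)
    refine ⟨Ψ R σ, b8, fun t t0 t1 => ⟨N.tube (R := R) ?_ ?_ t0 t1, N.tube (R := R) ?_ ?_ t0 t1⟩⟩
    · have := db.tri (Ψ R σ).1.1 w.1.1 w'.1.1
      rw [db.symm (Ψ R σ).1.1 w.1.1] at this
      linarith
    · rw [← s2, ← N.qp.add, N.min]
      exact abs_le.2 ⟨by linarith, by linarith⟩
    · change dd h (Ψ R σ).1.1 w.1.1 ≤ _
      rw [db.symm]
      linarith
    · rw [rev N.qp, ← N.qp.add, neg_add_cancel, N.z0, s1, db.refl]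
      linarith
  choose v h1 h2 using ex
  obtain ⟨u, -, φ, hφ, hl⟩ := (uc_cpt N.qp.rp.riem
    (N.qp.rp.pro w.1.1 K).isCompact_closure).tendsto_subseq (x := v) fun k => subset_closure (h1 k)
  have big := (tendsto_natCast_atTop_atTop (R := ℝ)).comp hφ.tendsto_atTop
  refine ⟨u, ⟨5 * (K + D), fun t ht => ?_⟩, 5 * (K + D), fun t ht => ?_⟩
  · have c : Continuous fun x : UT h => dd h (Ψ t x).1.1 (Ψ t w').1.1 :=
      cdd N.qp continuous_const continuous_const continuous_id continuous_const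
    refine le_of_tendsto ((c.tendsto u).comp hl) ?_
    filter_upwards [big.eventually_ge_atTop t] with k hk
    exact (h2 (φ k) t ht (le_trans hk (by simp))).1
  · have c : Continuous fun x : UT h => dd h (Ψ t (ng x)).1.1 (Ψ t w).1.1 :=
      cdd N.qp continuous_const continuous_const ng_cont continuous_const
    refine le_of_tendsto ((c.tendsto u).comp hl) ?_
    filter_upwards [big.eventually_ge_atTop t] with k hk
    exact (h2 (φ k) t ht (le_trans hk (by simp))).2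

/-- First order expansion of a Busemann function at the foot point. -/
theorem tay (B : BP h Ψ) : TayP h Ψ := fun R => by
  obtain ⟨C, hC⟩ := B.up R
  refine ⟨C, fun p x h1 h2 => abs_le.2 ⟨?_, hC p x h1 h2⟩⟩
  have a1 := hC (ng p) x h1 h2
  have a2 := B.opp p x
  have e : h (ng p).1.1 (ng p).1.2 (x - (ng p).1.1) = -h p.1.1 p.1.2 (x - p.1.1) := by
    simp [ng]
  rw [e] at a1
  change _ ≤ C * ‖x - p.1.1‖ ^ 2 at a1
  linarith

/-- The gradient of a Busemann function is minus the asymptote. -/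
theorem NH.der (N : NH h Λ Ψ a) {u w : UT h} (f : Fw h Ψ u w) :
    HasFDerivAt (bus h Ψ w) (-h u.1.1 u.1.2) u.1.1 := by
  obtain ⟨C, hC⟩ := tay N.bp (‖u.1.1‖ + 1)
  rw [hasFDerivAt_iff_isLittleO]
  have b : (fun y => bus h Ψ w y - bus h Ψ w u.1.1 - (-h u.1.1 u.1.2) (y - u.1.1)) =O[𝓝 u.1.1]
      fun y => ‖y - u.1.1‖ ^ 2 := by
    refine IsBigO.of_bound C ?_
    filter_upwards [(continuous_norm.tendsto u.1.1).eventually_lt_const (lt_add_one _)] with y hy
    have := hC u y (by linarith) hy.le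
    rw [N.coc f y, Real.norm_eq_abs, Real.norm_eq_abs, abs_of_nonneg (sq_nonneg ‖y - u.1.1‖)]
    rwa [add_sub_cancel_right, neg_apply, sub_neg_eq_add]
  exact b.trans_isLittleO (isLittleO_pow_sub_sub u.1.1 one_lt_two)

end Pool.Agent.MP_3ee8cb_gt.CZM
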